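import Mathlib

/-!
# The lemma on the logarithmic derivative (two radii form) for entire functions

For an entire function `p`, not identically zero, there is a constant `C` with
`m(r, p'/p) ≤ C + C log⁺ m(R, p) + C log r + C log (1/(R-r))` for `1 ≤ r < R ≤ r+1`
(`Pool.Agent.Hhelper97.LDL.ldl`).  Main reusable steps:
* `exists_factor`: extraction of all zeros in a closed disc, `card_le`: Jensen bound for their number;
* `logderiv_zero_free`: Schwarz-Poisson bound for the logarithmic derivative of a zero-free function;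
* `circleAverage_inv_sqrt_le`: circle averages of `|z-a|^{-1/2}` are uniformly bounded.
-/

set_option autoImplicit false
open Real Metric Set MeasureTheory Filter ValueDistribution
namespace Pool.Agent.Hhelper97.LDL


/-! ### circle averages of inverse square roots of distances -/

/-- `θ ↦ (√θ)⁻¹` is integrable near zero. -/
lemma intervalIntegrable_inv_sqrt (a b : ℝ) (ha : 0 ≤ a) (hb : 0 ≤ b) :
    IntervalIntegrable (fun x : ℝ => (√x)⁻¹) volume a b := by
  have h := intervalIntegral.intervalIntegrable_rpow' (a := a) (b := b) (r := -(1/2 : ℝ)) (by norm_num)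
  refine h.congr ?_
  intro x hx
  have hx0 : 0 ≤ x := by
    rcases le_total a b with hab | hab
    · rw [uIoc_of_le hab] at hx; exact ha.trans hx.1.le
    · rw [uIoc_of_ge hab] at hx; exact hb.trans hx.1.le
  simp only
  rw [rpow_neg hx0, sqrt_eq_rpow]

lemma sin_lower {x : ℝ} (h0 : 0 < x) (h1 : x < π) :
    (√|sin x|)⁻¹ ≤ √(π/2) * ((√x)⁻¹ + (√(π - x))⁻¹) := by
  have hs : 0 < sin x := sin_pos_of_pos_of_lt_pi h0 h1
  rw [abs_of_pos hs]
  have hpi := pi_pos
  rcases le_total x (π/2) with h | h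
  · have h2 : 2 / π * x ≤ sin x := by
      have := mul_le_sin h0.le h; exact this
    have h3 : (√(sin x))⁻¹ ≤ (√(2/π * x))⁻¹ := by
      apply inv_anti₀ (by positivity)
      exact sqrt_le_sqrt h2
    refine h3.trans ?_
    rw [sqrt_mul (by positivity), mul_inv, ← sqrt_inv, inv_div]
    have : 0 ≤ (√(π - x))⁻¹ := by positivity
    gcongr
    linarith
  · have h2 : 2 / π * (π - x) ≤ sin x := by
      have := mul_le_sin (x := π - x) (by linarith) (by linarith)
      rw [sin_pi_sub] at this; exact this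
    have hx' : 0 < π - x := by linarith
    have h3 : (√(sin x))⁻¹ ≤ (√(2/π * (π - x)))⁻¹ := by
      apply inv_anti₀ (by positivity)
      exact sqrt_le_sqrt h2
    refine h3.trans ?_
    rw [sqrt_mul (by positivity), mul_inv, ← sqrt_inv, inv_div]
    have : 0 ≤ (√x)⁻¹ := by positivity
    gcongr
    linarith

lemma intervalIntegrable_sin_inv_sqrt (a b : ℝ) :
    IntervalIntegrable (fun x : ℝ => (√|sin x|)⁻¹) volume a b := by
  have hper : Function.Periodic (fun x : ℝ => (√|sin x|)⁻¹) π := by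
    intro x; simp [sin_add_pi]
  refine hper.intervalIntegrable₀ pi_pos.ne' ?_ a b
  have hpi := pi_pos
  have h1 : IntervalIntegrable (fun x : ℝ => √(π/2) * ((√x)⁻¹ + (√(π - x))⁻¹)) volume 0 π := by
    apply IntervalIntegrable.const_mul
    apply IntervalIntegrable.add
    · exact intervalIntegrable_inv_sqrt 0 π le_rfl hpi.le
    · have := (intervalIntegrable_inv_sqrt 0 π le_rfl hpi.le).comp_sub_left π
      simpa using this.symm
  refine h1.mono_fun ?_ ?_
  · apply Measurable.aestronglyMeasurable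
    fun_prop
  · rw [uIoc_of_le hpi.le]
    have hnull : ∀ᵐ x ∂(volume.restrict (Ioc (0:ℝ) π)), x ≠ π := by
      have : (volume.restrict (Ioc (0:ℝ) π)) {π} = 0 := by
        refine le_antisymm ((Measure.restrict_apply_le _ _).trans ?_) zero_le
        simp
      exact compl_mem_ae_iff.mpr this
    filter_upwards [hnull, ae_restrict_mem measurableSet_Ioc] with x hx hx2
    have hlt : x < π := lt_of_le_of_ne hx2.2 hx
    rw [norm_of_nonneg (by positivity), norm_of_nonneg (by positivity)]
    exact sin_lower hx2.1 hlt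

/-- The constant. -/
noncomputable def K0 : ℝ := (2 * π)⁻¹ * ∫ x in (0:ℝ)..2 * π, (√|sin x|)⁻¹

lemma K0_nonneg : 0 ≤ K0 := by
  unfold K0
  have := pi_pos
  apply mul_nonneg (by positivity)
  apply intervalIntegral.integral_nonneg (by positivity)
  intro x _; positivity

lemma norm_circleMap_sub_ge (r : ℝ) (hr : 1 ≤ r) (a : ℂ) (θ : ℝ) :
    |sin θ| ≤ ‖circleMap 0 r (θ + a.arg) - a‖ := by
  have h1 : circleMap 0 r (θ + a.arg) - a
      = (circleMap 0 r θ - (‖a‖ : ℂ)) * Complex.exp (a.arg * Complex.I) := by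
    have ha := Complex.norm_mul_exp_arg_mul_I a
    have h0 : circleMap 0 r (θ + a.arg) = circleMap 0 r θ * Complex.exp (a.arg * Complex.I) := by
      simp only [circleMap, zero_add]
      push_cast
      rw [add_mul, Complex.exp_add]
      ring
    rw [h0, sub_mul, ha]
  rw [h1, norm_mul, Complex.norm_exp_ofReal_mul_I, mul_one]
  have h2 : (circleMap 0 r θ - (‖a‖ : ℂ)).im = r * sin θ := by
    simp [circleMap, Complex.exp_ofReal_mul_I_im]
  calc |sin θ| ≤ |r * sin θ| := by
        rw [abs_mul, abs_of_pos (by linarith : (0:ℝ) < r)]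
        nlinarith [abs_nonneg (sin θ)]
    _ = |(circleMap 0 r θ - (‖a‖ : ℂ)).im| := by rw [h2]
    _ ≤ _ := Complex.abs_im_le_norm _

lemma ae_sin_ne_zero : ∀ᵐ x : ℝ, sin x ≠ 0 := by
  have hc : ({x : ℝ | sin x = 0} : Set ℝ).Countable := by
    have : ({x : ℝ | sin x = 0} : Set ℝ) ⊆ Set.range (fun n : ℤ => (n : ℝ) * π) := by
      intro x hx
      obtain ⟨n, hn⟩ := sin_eq_zero_iff.mp hx
      exact ⟨n, hn⟩
    exact (Set.countable_range _).mono this
  have h0 := hc.measure_zero volume
  have := compl_mem_ae_iff.mpr h0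
  filter_upwards [this] with x hx using hx

lemma inv_sqrt_dist_le (r : ℝ) (hr : 1 ≤ r) (a : ℂ) (θ : ℝ) (hθ : sin θ ≠ 0) :
    (√‖circleMap 0 r (θ + a.arg) - a‖)⁻¹ ≤ (√|sin θ|)⁻¹ := by
  have h : 0 < |sin θ| := abs_pos.mpr hθ
  apply inv_anti₀ (by positivity)
  exact sqrt_le_sqrt (norm_circleMap_sub_ge r hr a θ)

lemma circleIntegrable_inv_sqrt (r : ℝ) (hr : 1 ≤ r) (a : ℂ) :
    CircleIntegrable (fun z => (√‖z - a‖)⁻¹) 0 r := by
  have h1 : IntervalIntegrable (fun θ : ℝ => (√‖circleMap 0 r (θ + a.arg) - a‖)⁻¹) volume 0 (2*π) := by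
    refine (intervalIntegrable_sin_inv_sqrt 0 (2*π)).mono_fun ?_ ?_
    · apply Measurable.aestronglyMeasurable
      fun_prop
    · filter_upwards [ae_restrict_of_ae ae_sin_ne_zero] with x hx
      rw [norm_of_nonneg (by positivity), norm_of_nonneg (by positivity)]
      exact inv_sqrt_dist_le r hr a x hx
  have hper : Function.Periodic (fun θ : ℝ => (√‖circleMap 0 r θ - a‖)⁻¹) (2*π) := by
    intro x; simp [periodic_circleMap 0 r x]
  have h2 := h1.comp_add_right (-a.arg)
  simp only [neg_add_cancel_right, sub_neg_eq_add] at h2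
  unfold CircleIntegrable
  refine hper.intervalIntegrable (t := a.arg) (by positivity) ?_ 0 (2*π)
  convert h2 using 1 <;> ring

lemma circleAverage_inv_sqrt_le (r : ℝ) (hr : 1 ≤ r) (a : ℂ) :
    circleAverage (fun z => (√‖z - a‖)⁻¹) 0 r ≤ K0 := by
  rw [circleAverage_eq_integral_add a.arg, K0, smul_eq_mul]
  have h1 : IntervalIntegrable (fun θ : ℝ => (√‖circleMap 0 r (θ + a.arg) - a‖)⁻¹) volume 0 (2*π) := by
    refine (intervalIntegrable_sin_inv_sqrt 0 (2*π)).mono_fun ?_ ?_
    · apply Measurable.aestronglyMeasurable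
      fun_prop
    · filter_upwards [ae_restrict_of_ae ae_sin_ne_zero] with x hx
      rw [norm_of_nonneg (by positivity), norm_of_nonneg (by positivity)]
      exact inv_sqrt_dist_le r hr a x hx
  have hpi := pi_pos
  gcongr
  apply intervalIntegral.integral_mono_ae (by positivity) h1 (intervalIntegrable_sin_inv_sqrt 0 (2*π))
  filter_upwards [ae_sin_ne_zero] with x hx
  exact inv_sqrt_dist_le r hr a x hx



/-- product of linear factors -/
def linProd (Z : List ℂ) (z : ℂ) : ℂ := (Z.map (fun a => z - a)).prod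

@[simp] lemma linProd_nil (z : ℂ) : linProd [] z = 1 := by simp [linProd]
@[simp] lemma linProd_cons (a : ℂ) (Z : List ℂ) (z : ℂ) :
    linProd (a :: Z) z = (z - a) * linProd Z z := by simp [linProd]

lemma differentiable_linProd (Z : List ℂ) : Differentiable ℂ (linProd Z) := by
  induction Z with
  | nil =>
    have : linProd [] = fun _ => (1:ℂ) := by ext z; simp
    rw [this]; fun_prop
  | cons a Z ih =>
    have : linProd (a :: Z) = fun z => (z - a) * linProd Z z := by ext z; simp
    rw [this]; fun_prop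

lemma eventually_ne_zero (G : ℂ → ℂ) (hG : Differentiable ℂ G) (h : ∃ z, G z ≠ 0) (s : Set ℂ) :
    ∀ᶠ z in codiscreteWithin s, G z ≠ 0 := by
  have hA : AnalyticOnNhd ℂ G univ := fun z _ => hG.analyticAt z
  rcases hA.eqOn_zero_or_eventually_ne_zero_of_preconnected isPreconnected_univ with h1 | h1
  · obtain ⟨z, hz⟩ := h
    exact absurd (h1 (mem_univ z)) hz
  · exact h1.filter_mono (codiscreteWithin_mono (subset_univ s))

lemma circleIntegrable_log_norm (G : ℂ → ℂ) (hG : Differentiable ℂ G) (R : ℝ) :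
    CircleIntegrable (fun z => log ‖G z‖) 0 R :=
  MeromorphicOn.circleIntegrable_log_norm (fun z _ => (hG.analyticAt z).meromorphicAt)

lemma circleIntegrable_posLog_norm (G : ℂ → ℂ) (hG : Differentiable ℂ G) (R : ℝ) :
    CircleIntegrable (fun z => log⁺ ‖G z‖) 0 R :=
  MeromorphicOn.circleIntegrable_posLog_norm (fun z _ => (hG.analyticAt z).meromorphicAt)

lemma avg_log_mul (G : ℂ → ℂ) (hG : Differentiable ℂ G) (h : ∃ z, G z ≠ 0) (R : ℝ) (hR : 0 < R)
    (a : ℂ) (ha : ‖a‖ ≤ R) :
    circleAverage (fun z => log ‖(z - a) * G z‖) 0 R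
      = log R + circleAverage (fun z => log ‖G z‖) 0 R := by
  have h1 : (fun z => log ‖(z - a) * G z‖) =ᶠ[codiscreteWithin (sphere (0:ℂ) |R|)]
      (fun z => log ‖z - a‖ + log ‖G z‖) := by
    filter_upwards [eventually_ne_zero G hG h _,
      eventually_ne_zero (fun z => z - a) (by fun_prop) ⟨a + 1, by simp⟩ _] with z hz hz2
    rw [norm_mul, log_mul (by simpa using hz2) (by simpa using hz)]
  rw [circleAverage_congr_codiscreteWithin h1 hR.ne']
  rw [circleAverage_fun_add (circleIntegrable_log_norm _ (by fun_prop) R)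
    (circleIntegrable_log_norm _ hG R)]
  congr 1
  apply circleAverage_log_norm_sub_const_of_mem_closedBall
  simpa [abs_of_pos hR] using ha

lemma avg_log_linProd_mul (h : ℂ → ℂ) (hh : Differentiable ℂ h) (h0 : h 0 ≠ 0) (R : ℝ) (hR : 0 < R)
    (Z : List ℂ) (hZ : ∀ a ∈ Z, ‖a‖ ≤ R) (hZ0 : ∀ a ∈ Z, a ≠ 0) :
    circleAverage (fun z => log ‖linProd Z z * h z‖) 0 R
      = Z.length * log R + circleAverage (fun z => log ‖h z‖) 0 R := by
  induction Z with
  | nil => simp
  | cons a Z ih =>
    have ih' := ih (fun b hb => hZ b (by simp [hb])) (fun b hb => hZ0 b (by simp [hb]))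
    have hne : ∃ z, linProd Z z * h z ≠ 0 := by
      refine ⟨0, mul_ne_zero ?_ h0⟩
      have : ∀ W : List ℂ, (∀ a ∈ W, a ≠ 0) → linProd W 0 ≠ 0 := by
        intro W
        induction W with
        | nil => simp
        | cons b W ihW =>
          intro hW
          rw [linProd_cons]
          refine mul_ne_zero ?_ (ihW (fun c hc => hW c (by simp [hc])))
          have := hW b (by simp)
          simpa using this
      exact this Z (fun b hb => hZ0 b (by simp [hb]))
    have := avg_log_mul (fun z => linProd Z z * h z) ((differentiable_linProd Z).mul hh) hne R hR a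
      (hZ a (by simp))
    simp only [linProd_cons, mul_assoc, List.length_cons]
    rw [this, ih']
    push_cast
    ring

lemma log_norm_linProd_zero (ρ : ℝ) (Z : List ℂ) (hZ : ∀ a ∈ Z, ‖a‖ ≤ ρ)
    (hZ0 : ∀ a ∈ Z, a ≠ 0) : linProd Z 0 ≠ 0 ∧ log ‖linProd Z 0‖ ≤ Z.length * log ρ := by
  induction Z with
  | nil => simp
  | cons a Z ih =>
    obtain ⟨ih1, ih2⟩ := ih (fun b hb => hZ b (by simp [hb])) (fun b hb => hZ0 b (by simp [hb]))
    have ha : a ≠ 0 := hZ0 a (by simp)
    have hna : 0 < ‖a‖ := norm_pos_iff.mpr ha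
    rw [linProd_cons, zero_sub]
    refine ⟨mul_ne_zero (neg_ne_zero.mpr ha) ih1, ?_⟩
    rw [norm_mul, norm_neg, log_mul hna.ne' (norm_ne_zero_iff.mpr ih1), List.length_cons]
    push_cast
    have := log_le_log hna (hZ a (by simp))
    linarith

lemma log_norm_zero_le_avg (h : ℂ → ℂ) (hh : Differentiable ℂ h) (h0 : h 0 ≠ 0) (R : ℝ)
    (hR : 0 < R) : log ‖h 0‖ ≤ circleAverage (fun z => log ‖h z‖) 0 R := by
  have hA : AnalyticOnNhd ℂ h (closedBall 0 |R|) := fun z _ => hh.analyticAt z
  have h1 := hA.circleAverage_log_norm hR.ne' h0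
  rw [h1]
  have : 0 ≤ ∑ᶠ u, MeromorphicOn.divisor h (closedBall 0 |R|) u * log (R * ‖0 - u‖⁻¹) := by
    apply finsum_nonneg
    intro u
    by_cases hu : u ∈ closedBall (0:ℂ) |R|
    · by_cases hu0 : u = 0
      · subst hu0; simp
      · apply mul_nonneg
        · exact_mod_cast MeromorphicOn.AnalyticOnNhd.divisor_nonneg hA u
        · apply log_nonneg
          have hu1 : ‖u‖ ≤ R := by simpa [abs_of_pos hR] using hu
          have hu2 : 0 < ‖u‖ := norm_pos_iff.mpr hu0
          rw [zero_sub, norm_neg, ← div_eq_mul_inv, le_div_iff₀ hu2]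
          linarith
    · simp [Function.locallyFinsuppWithin.apply_eq_zero_of_notMem _ hu]
  linarith

lemma avg_log_le_proximity (p : ℂ → ℂ) (hp : Differentiable ℂ p) (R : ℝ) :
    circleAverage (fun z => log ‖p z‖) 0 R ≤ proximity p ⊤ R := by
  rw [proximity_top]
  apply circleAverage_mono (circleIntegrable_log_norm p hp R) (circleIntegrable_posLog_norm p hp R)
  intro x _
  exact le_max_right _ _

/-- Jensen bound for the number of extracted zeros. -/
lemma card_le (p h : ℂ → ℂ) (hp : Differentiable ℂ p) (hh : Differentiable ℂ h) (h0 : p 0 ≠ 0)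
    (ρ R : ℝ) (hρ : 0 < ρ) (hρR : ρ ≤ R) (Z : List ℂ) (hZ : ∀ a ∈ Z, ‖a‖ ≤ ρ)
    (hfac : ∀ z, p z = linProd Z z * h z) :
    Z.length * (log R - log ρ) ≤ proximity p ⊤ R - log ‖p 0‖ := by
  have hR : 0 < R := hρ.trans_le hρR
  have hh0 : h 0 ≠ 0 := by
    intro h1; apply h0; rw [hfac, h1, mul_zero]
  have hZ0 : ∀ a ∈ Z, a ≠ 0 := by
    intro a ha ha0
    apply h0
    rw [hfac]
    have : linProd Z 0 = 0 := by
      unfold linProd
      apply List.prod_eq_zero
      simp only [List.mem_map]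
      exact ⟨a, ha, by simp [ha0]⟩
    rw [this, zero_mul]
  have h1 := avg_log_linProd_mul h hh hh0 R hR Z (fun a ha => (hZ a ha).trans hρR) hZ0
  have h2 : (fun z => log ‖linProd Z z * h z‖) = fun z => log ‖p z‖ := by
    ext z; rw [hfac]
  rw [h2] at h1
  have h3 := avg_log_le_proximity p hp R
  have h4 := log_norm_zero_le_avg h hh hh0 R hR
  obtain ⟨h5, h6⟩ := log_norm_linProd_zero ρ Z hZ hZ0
  have h7 : log ‖p 0‖ = log ‖linProd Z 0‖ + log ‖h 0‖ := by
    rw [hfac, norm_mul, log_mul (by simpa using h5) (by simpa using hh0)]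
  nlinarith

/-- Extraction of all zeros in the closed disc of radius `ρ`. -/
lemma exists_factor (p : ℂ → ℂ) (hp : Differentiable ℂ p) (h0 : p 0 ≠ 0)
    (ρ R : ℝ) (hρ : 0 < ρ) (hρR : ρ < R) :
    ∃ (Z : List ℂ) (h : ℂ → ℂ), Differentiable ℂ h ∧ (∀ a ∈ Z, ‖a‖ ≤ ρ) ∧
      (∀ z, p z = linProd Z z * h z) ∧ ∀ z, ‖z‖ ≤ ρ → h z ≠ 0 := by
  classical
  have hlog : 0 < log R - log ρ := by
    have := log_lt_log hρ hρR; linarith
  set B : ℝ := (proximity p ⊤ R - log ‖p 0‖) / (log R - log ρ) with hB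
  -- the set of achievable lengths
  let P : ℕ → Prop := fun n => ∃ (Z : List ℂ) (h : ℂ → ℂ), Z.length = n ∧ Differentiable ℂ h ∧
    (∀ a ∈ Z, ‖a‖ ≤ ρ) ∧ (∀ z, p z = linProd Z z * h z)
  have hP0 : P 0 := ⟨[], p, rfl, hp, by simp, by simp⟩
  have hPb : ∀ n, P n → n ≤ ⌊B⌋₊ := by
    rintro n ⟨Z, h, hn, hh, hZ, hfac⟩
    have := card_le p h hp hh h0 ρ R hρ hρR.le Z hZ hfac
    apply Nat.le_floor
    rw [hB, le_div_iff₀ hlog, ← hn]
    exact this
  obtain ⟨n, hn, hmax⟩ : ∃ n, P n ∧ ∀ m, P m → m ≤ n := by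
    refine ⟨Nat.findGreatest P ⌊B⌋₊, ?_, ?_⟩
    · exact Nat.findGreatest_spec (Nat.zero_le _) hP0
    · intro m hm
      exact Nat.le_findGreatest (hPb m hm) hm
  obtain ⟨Z, h, hn, hh, hZ, hfac⟩ := hn
  refine ⟨Z, h, hh, hZ, hfac, ?_⟩
  intro b hb hb0
  have hds : Differentiable ℂ (dslope h b) := by
    rw [← differentiableOn_univ, Complex.differentiableOn_dslope (univ_mem)]
    exact hh.differentiableOn
  have hP : P (n + 1) := by
    refine ⟨b :: Z, dslope h b, by simp [hn], hds, ?_, ?_⟩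
    · intro a ha
      rcases List.mem_cons.mp ha with rfl | ha
      · exact hb
      · exact hZ a ha
    · intro z
      have h1 := sub_smul_dslope h b z
      rw [hb0, sub_zero, smul_eq_mul] at h1
      rw [linProd_cons, hfac, ← h1]
      ring
  have := hmax _ hP
  omega



/-- Derivative of the Schwarz–Poisson formula for a function without zeros in a closed disc. -/
lemma logderiv_zero_free (h : ℂ → ℂ) (hh : Differentiable ℂ h) (ρ r : ℝ) (hr : 0 ≤ r) (hrρ : r < ρ)
    (hne : ∀ z, ‖z‖ ≤ ρ → h z ≠ 0) (z : ℂ) (hz : ‖z‖ ≤ r) :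
    ‖deriv h z / h z‖ ≤ 2 * ρ / (ρ - r) ^ 2 * circleAverage (fun z => |log ‖h z‖|) 0 ρ := by
  have hρ : 0 < ρ := lt_of_le_of_lt hr hrρ
  set u : ℂ → ℝ := fun z => log ‖h z‖ with hu
  have hharm : InnerProductSpace.HarmonicOnNhd u (closedBall 0 ρ) := by
    intro w hw
    exact (hh.analyticAt w).harmonicAt_log_norm (hne w (by simpa using hw))
  have hucont : ContinuousOn u (sphere 0 ρ) := by
    intro w hw
    have : h w ≠ 0 := hne w (by simpa using hw.le)
    have h1 : ContinuousAt u w :=
      (hh.continuous.norm.continuousAt).log (norm_ne_zero_iff.mpr this)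
    exact h1.continuousWithinAt
  have huci : CircleIntegrable u 0 ρ := hucont.circleIntegrable hρ.le
  have huci' : CircleIntegrable (fun z => (u z : ℂ)) 0 ρ := by
    apply ContinuousOn.circleIntegrable hρ.le
    exact Complex.continuous_ofReal.comp_continuousOn hucont
  set F : ℂ → ℂ := fun w ↦ circleAverage (fun ζ ↦ herglotzRieszKernel 0 w ζ • (u ζ : ℂ)) 0 ρ with hF
  have hFd : ∀ w ∈ ball (0:ℂ) ρ, HasDerivAt F
      (circleAverage (fun ζ ↦ (2 * ζ / (ζ - w) ^ 2) • (u ζ : ℂ)) 0 ρ) w :=
    fun w hw => hasDerivAt_circleAverage_herglotzRieszKernel_smul huci' hw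
  have hFre : ∀ w ∈ ball (0:ℂ) ρ, (F w).re = u w := by
    intro w hw
    rw [hF]
    simp only
    rw [re_circleAverage_herglotzRieszKernel_smul huci hw]
    exact hharm.circleAverage_re_herglotzRieszKernel_smul hw
  -- G = h * exp (-F) has constant norm
  set G : ℂ → ℂ := fun w => h w * Complex.exp (-F w) with hG
  have hGnorm : ∀ w ∈ ball (0:ℂ) ρ, ‖G w‖ = 1 := by
    intro w hw
    have hw0 : h w ≠ 0 := hne w (by simpa using (mem_ball.mp hw).le)
    rw [hG]
    simp only
    rw [norm_mul, Complex.norm_exp, Complex.neg_re, hFre w hw, hu]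
    simp only
    rw [exp_neg, exp_log (norm_pos_iff.mpr hw0)]
    exact mul_inv_cancel₀ (norm_ne_zero_iff.mpr hw0)
  have hGdiff : DifferentiableOn ℂ G (ball 0 ρ) := by
    intro w hw
    have := (hFd w hw).differentiableAt
    exact ((hh w).mul this.neg.cexp).differentiableWithinAt
  have hzb : z ∈ ball (0:ℂ) ρ := by simpa using lt_of_le_of_lt hz hrρ
  have hGconst : EqOn G (fun _ => G z) (ball 0 ρ) := by
    have := Complex.eqOn_of_isPreconnected_of_isMaxOn_norm (f := G) (U := ball (0:ℂ) ρ) (c := z)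
      (convex_ball _ _).isPreconnected isOpen_ball hGdiff hzb ?_
    · exact this
    · intro w hw
      simp only [Set.mem_ofPred_eq, Function.comp_apply]
      rw [hGnorm w hw, hGnorm z hzb]
  have hGd0 : HasDerivAt G 0 z := by
    have h1 : HasDerivAt (fun _ : ℂ => G z) 0 z := hasDerivAt_const z (G z)
    refine h1.congr_of_eventuallyEq ?_
    filter_upwards [isOpen_ball.mem_nhds hzb] with w hw
    exact hGconst hw
  have hGd1 : HasDerivAt G (deriv h z * Complex.exp (-F z) + h z * (Complex.exp (-F z) *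
      (-circleAverage (fun ζ ↦ (2 * ζ / (ζ - z) ^ 2) • (u ζ : ℂ)) 0 ρ))) z :=
    (hh z).hasDerivAt.mul (hFd z hzb).neg.cexp
  have heq := hGd1.unique hGd0
  have hz0 : h z ≠ 0 := hne z (hz.trans hrρ.le)
  have hkey : deriv h z / h z = circleAverage (fun ζ ↦ (2 * ζ / (ζ - z) ^ 2) • (u ζ : ℂ)) 0 ρ := by
    have he : Complex.exp (-F z) ≠ 0 := Complex.exp_ne_zero _
    have : Complex.exp (-F z) * (deriv h z - h z *
      circleAverage (fun ζ ↦ (2 * ζ / (ζ - z) ^ 2) • (u ζ : ℂ)) 0 ρ) = 0 := by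
      linear_combination heq
    have h2 := (mul_eq_zero.mp this).resolve_left he
    rw [div_eq_iff hz0]
    linear_combination h2
  rw [hkey]
  have hrρ' : 0 < ρ - r := by linarith
  -- norm bound
  have hbound : ∀ θ : ℝ, ‖(2 * circleMap 0 ρ θ / (circleMap 0 ρ θ - z) ^ 2) • ((u (circleMap 0 ρ θ) : ℝ) : ℂ)‖
      ≤ 2 * ρ / (ρ - r) ^ 2 * |u (circleMap 0 ρ θ)| := by
    intro θ
    have hn : ‖circleMap 0 ρ θ‖ = ρ := by rw [norm_circleMap_zero, abs_of_pos hρ]
    rw [smul_eq_mul, norm_mul, Complex.norm_real, norm_eq_abs, norm_div, norm_mul, norm_pow, hn]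
    have h1 : ρ - r ≤ ‖circleMap 0 ρ θ - z‖ := by
      have := norm_sub_norm_le (circleMap 0 ρ θ) z
      rw [hn] at this; linarith
    have h2 : ‖(2:ℂ)‖ = 2 := by norm_num
    rw [h2]
    gcongr
  rw [circleAverage, circleAverage, norm_smul, smul_eq_mul]
  have hpi := pi_pos
  rw [norm_of_nonneg (by positivity : 0 ≤ (2 * π)⁻¹)]
  have habs : IntervalIntegrable (fun θ => |u (circleMap 0 ρ θ)|) volume 0 (2*π) :=
    IntervalIntegrable.abs huci
  calc (2 * π)⁻¹ * ‖∫ θ in (0:ℝ)..2 * π, (2 * circleMap 0 ρ θ / (circleMap 0 ρ θ - z) ^ 2) • ((u (circleMap 0 ρ θ) : ℝ) : ℂ)‖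
      ≤ (2 * π)⁻¹ * ∫ θ in (0:ℝ)..2 * π, 2 * ρ / (ρ - r) ^ 2 * |u (circleMap 0 ρ θ)| := by
        gcongr
        apply intervalIntegral.norm_integral_le_of_norm_le (by positivity)
        · filter_upwards with θ _ using hbound θ
        · exact habs.const_mul _
    _ = 2 * ρ / (ρ - r) ^ 2 * ((2 * π)⁻¹ * ∫ θ in (0:ℝ)..2 * π, |u (circleMap 0 ρ θ)|) := by
        rw [intervalIntegral.integral_const_mul]; ring



/-- The proximity function of an entire function is monotone. -/
lemma proximity_mono (p : ℂ → ℂ) (hp : Differentiable ℂ p) (ρ R : ℝ) (hρ : 0 < ρ) (h : ρ ≤ R) :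
    proximity p ⊤ ρ ≤ proximity p ⊤ R := by
  have hmer : Meromorphic p := fun z => (hp.analyticAt z).meromorphicAt
  have h0 : logCounting p ⊤ = 0 := by
    have h1 := logCounting_add_analyticOn (𝕜 := ℂ) (f := fun _ : ℂ => (0:ℂ)) (g := p)
      (fun z => by fun_prop) (fun z _ => (hp.analyticAt z).analyticWithinAt)
    have h2 : (fun _ : ℂ => (0:ℂ)) + p = p := by ext z; simp
    rw [h2] at h1
    rw [h1]; simp
  have h3 := characteristic_monotoneOn hmer (mem_Ioi.mpr hρ) (mem_Ioi.mpr (hρ.trans_le h)) h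
  unfold characteristic at h3
  rw [h0] at h3
  simpa using h3

lemma circleIntegrable_abs_log_norm (G : ℂ → ℂ) (hG : Differentiable ℂ G) (R : ℝ) :
    CircleIntegrable (fun z => |log ‖G z‖|) 0 R :=
  (circleIntegrable_log_norm G hG R).abs

lemma circleIntegrable_two_posLog (G : ℂ → ℂ) (hG : Differentiable ℂ G) (R : ℝ) :
    CircleIntegrable (fun z => 2 * log⁺ ‖G z‖) 0 R :=
  (circleIntegrable_posLog_norm G hG R).const_mul 2

lemma abs_log_eq (x : ℝ) : |log x| = 2 * log⁺ x - log x := by
  have := half_mul_log_add_log_abs (x := x)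
  linarith

lemma avg_abs_log (p : ℂ → ℂ) (hp : Differentiable ℂ p) (h0 : p 0 ≠ 0) (R : ℝ) (hR : 0 < R) :
    circleAverage (fun z => |log ‖p z‖|) 0 R ≤ 2 * proximity p ⊤ R - log ‖p 0‖ := by
  have h1 : (fun z => |log ‖p z‖|) = fun z => 2 * log⁺ ‖p z‖ - log ‖p z‖ := by
    ext z; exact abs_log_eq _
  rw [h1, circleAverage_fun_sub (circleIntegrable_two_posLog p hp R)
    (circleIntegrable_log_norm p hp R)]
  have h2 : circleAverage (fun z => 2 * log⁺ ‖p z‖) 0 R = 2 * proximity p ⊤ R := by
    rw [proximity_top]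
    have := circleAverage_fun_smul (c := 0) (R := R) (a := (2:ℝ)) (f := fun z => log⁺ ‖p z‖)
    simpa [smul_eq_mul] using this
  rw [h2]
  have := log_norm_zero_le_avg p hp h0 R hR
  linarith

lemma avg_abs_log_sub (ρ : ℝ) (hρ : 1 ≤ ρ) (a : ℂ) (ha : ‖a‖ ≤ ρ) :
    circleAverage (fun z => |log ‖z - a‖|) 0 ρ ≤ 4 * ρ := by
  have h1 : (fun z : ℂ => |log ‖z - a‖|) = fun z => 2 * log⁺ ‖z - a‖ - log ‖z - a‖ := by
    ext z; exact abs_log_eq _
  have hd : Differentiable ℂ (fun z : ℂ => z - a) := by fun_prop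
  rw [h1, circleAverage_fun_sub (circleIntegrable_two_posLog (fun z => z - a) hd ρ)
    (circleIntegrable_log_norm (fun z => z - a) hd ρ)]
  have h3 : circleAverage (fun z => log ‖z - a‖) 0 ρ = log ρ := by
    apply circleAverage_log_norm_sub_const_of_mem_closedBall
    simpa [abs_of_pos (by linarith : 0 < ρ)] using ha
  rw [h3]
  have h4 : 0 ≤ log ρ := log_nonneg hρ
  have h5 : circleAverage (fun z => 2 * log⁺ ‖z - a‖) 0 ρ ≤ 4 * ρ := by
    apply circleAverage_mono_on_of_le_circle (circleIntegrable_two_posLog (fun z => z - a) hd ρ)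
    intro z hz
    have hz' : ‖z‖ = ρ := by simpa [abs_of_pos (by linarith : 0 < ρ)] using hz
    have h6 : ‖z - a‖ ≤ 2 * ρ := by
      have := norm_sub_le z a; linarith
    have h7 : log⁺ ‖z - a‖ ≤ log⁺ (2 * ρ) := posLog_le_posLog (norm_nonneg _) h6
    have h8 : log⁺ (2 * ρ) = log (2 * ρ) := by
      apply posLog_eq_log
      rw [abs_of_pos (by linarith)]; linarith
    have h9 : log (2 * ρ) ≤ 2 * ρ := by
      have := log_le_sub_one_of_pos (by linarith : 0 < 2 * ρ); linarith
    linarith
  linarith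

lemma avg_abs_log_step (G : ℂ → ℂ) (hG : Differentiable ℂ G) (h : ∃ z, G z ≠ 0) (ρ : ℝ)
    (hρ : 1 ≤ ρ) (a : ℂ) (ha : ‖a‖ ≤ ρ) :
    circleAverage (fun z => |log ‖G z‖|) 0 ρ
      ≤ circleAverage (fun z => |log ‖(z - a) * G z‖|) 0 ρ + 4 * ρ := by
  have h1 : (fun z => |log ‖G z‖|) =ᶠ[codiscreteWithin (sphere (0:ℂ) |ρ|)]
      (fun z => |log ‖(z - a) * G z‖ - log ‖z - a‖|) := by
    filter_upwards [eventually_ne_zero G hG h _,
      eventually_ne_zero (fun z => z - a) (by fun_prop) ⟨a + 1, by simp⟩ _] with z hz hz2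
    rw [norm_mul, log_mul (by simpa using hz2) (by simpa using hz)]
    congr 1; ring
  rw [circleAverage_congr_codiscreteWithin h1 (by positivity)]
  have hd : Differentiable ℂ (fun z : ℂ => z - a) := by fun_prop
  have hdG : Differentiable ℂ (fun z : ℂ => (z - a) * G z) := by fun_prop
  have h2 : circleAverage (fun z => |log ‖(z - a) * G z‖ - log ‖z - a‖|) 0 ρ
      ≤ circleAverage (fun z => |log ‖(z - a) * G z‖| + |log ‖z - a‖|) 0 ρ := by
    apply circleAverage_mono
    · exact ((circleIntegrable_log_norm (fun z : ℂ => (z - a) * G z) hdG ρ).sub (circleIntegrable_log_norm _ hd ρ)).abs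
    · exact (circleIntegrable_abs_log_norm (fun z : ℂ => (z - a) * G z) hdG ρ).add (circleIntegrable_abs_log_norm _ hd ρ)
    · intro x _; exact abs_sub _ _
  refine h2.trans ?_
  rw [circleAverage_fun_add (circleIntegrable_abs_log_norm (fun z : ℂ => (z - a) * G z) hdG ρ)
    (circleIntegrable_abs_log_norm _ hd ρ)]
  have := avg_abs_log_sub ρ hρ a ha
  linarith

lemma linProd_ne_zero_zero (Z : List ℂ) (hZ0 : ∀ a ∈ Z, a ≠ 0) : linProd Z 0 ≠ 0 := by
  induction Z with
  | nil => simp
  | cons b W ihW =>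
    rw [linProd_cons]
    refine mul_ne_zero ?_ (ihW (fun c hc => hZ0 c (by simp [hc])))
    have := hZ0 b (by simp)
    simpa using this

lemma avg_abs_log_h (h : ℂ → ℂ) (hh : Differentiable ℂ h) (h0 : h 0 ≠ 0) (ρ : ℝ)
    (hρ : 1 ≤ ρ) (Z : List ℂ) (hZ : ∀ a ∈ Z, ‖a‖ ≤ ρ) (hZ0 : ∀ a ∈ Z, a ≠ 0) :
    circleAverage (fun z => |log ‖h z‖|) 0 ρ
      ≤ circleAverage (fun z => |log ‖linProd Z z * h z‖|) 0 ρ + Z.length * (4 * ρ) := by
  induction Z with
  | nil => simp
  | cons a Z ih =>
    have ih' := ih (fun b hb => hZ b (by simp [hb])) (fun b hb => hZ0 b (by simp [hb]))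
    have hne : ∃ z, linProd Z z * h z ≠ 0 :=
      ⟨0, mul_ne_zero (linProd_ne_zero_zero Z (fun b hb => hZ0 b (by simp [hb]))) h0⟩
    have := avg_abs_log_step (fun z => linProd Z z * h z) ((differentiable_linProd Z).mul hh) hne ρ hρ a
      (hZ a (by simp))
    simp only [linProd_cons, mul_assoc, List.length_cons]
    push_cast
    linarith

/-! ### the logarithmic derivative of a product -/

/-- sum of the inverse square roots. -/
noncomputable def invSum (Z : List ℂ) (z : ℂ) : ℝ := (Z.map (fun a => (√‖z - a‖)⁻¹)).sum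

@[simp] lemma invSum_nil (z : ℂ) : invSum [] z = 0 := by simp [invSum]
@[simp] lemma invSum_cons (a : ℂ) (Z : List ℂ) (z : ℂ) :
    invSum (a :: Z) z = (√‖z - a‖)⁻¹ + invSum Z z := by simp [invSum]

lemma invSum_nonneg (Z : List ℂ) (z : ℂ) : 0 ≤ invSum Z z := by
  induction Z with
  | nil => simp
  | cons a Z ih => rw [invSum_cons]; positivity

lemma invSum_circle (Z : List ℂ) (r : ℝ) (hr : 1 ≤ r) :
    CircleIntegrable (invSum Z) 0 r ∧ circleAverage (invSum Z) 0 r ≤ Z.length * K0 := by
  induction Z with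
  | nil =>
    have : invSum [] = fun _ => (0:ℝ) := by ext z; simp
    rw [this]
    refine ⟨circleIntegrable_const _ _ _, ?_⟩
    simp [circleAverage_const]
  | cons a Z ih =>
    have : invSum (a :: Z) = fun z => (√‖z - a‖)⁻¹ + invSum Z z := by ext z; simp
    rw [this]
    refine ⟨(circleIntegrable_inv_sqrt r hr a).add ih.1, ?_⟩
    rw [circleAverage_fun_add (circleIntegrable_inv_sqrt r hr a) ih.1, List.length_cons]
    push_cast
    have := circleAverage_inv_sqrt_le r hr a
    linarith [ih.2]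

lemma sqrt_add_le' (x y : ℝ) (hx : 0 ≤ x) (hy : 0 ≤ y) : √(x + y) ≤ √x + √y := by
  rw [sqrt_le_left (by positivity), add_sq, sq_sqrt hx, sq_sqrt hy]
  have : 0 ≤ √x * √y := by positivity
  nlinarith

lemma norm_logDeriv_step (G : ℂ → ℂ) (hG : Differentiable ℂ G) (a z : ℂ) :
    ‖logDeriv (fun z => (z - a) * G z) z‖ ≤ ‖z - a‖⁻¹ + ‖logDeriv G z‖ := by
  by_cases h1 : z - a = 0
  · have : logDeriv (fun z => (z - a) * G z) z = 0 := by
      rw [logDeriv_apply]; simp [h1]
    rw [this, norm_zero]; positivity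
  by_cases h2 : G z = 0
  · have : logDeriv (fun z => (z - a) * G z) z = 0 := by
      rw [logDeriv_apply]; simp [h2]
    rw [this, norm_zero]; positivity
  have hd : DifferentiableAt ℂ (fun z : ℂ => z - a) z := by fun_prop
  have := logDeriv_mul (f := fun z : ℂ => z - a) (g := G) z h1 h2 hd (hG z)
  rw [this]
  refine (norm_add_le _ _).trans ?_
  gcongr
  rw [logDeriv_apply]
  have h3 : deriv (fun z : ℂ => z - a) z = 1 := by
    simp
  rw [h3, norm_div, norm_one, one_div]

lemma sqrt_norm_logDeriv (h : ℂ → ℂ) (hh : Differentiable ℂ h) (Z : List ℂ) (z : ℂ) :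
    √‖logDeriv (fun z => linProd Z z * h z) z‖ ≤ √‖logDeriv h z‖ + invSum Z z := by
  induction Z with
  | nil => simp
  | cons a Z ih =>
    have h1 := norm_logDeriv_step (fun z => linProd Z z * h z) ((differentiable_linProd Z).mul hh) a z
    have h2 : (fun z => linProd (a :: Z) z * h z) = fun z => (z - a) * (linProd Z z * h z) := by
      ext z; rw [linProd_cons]; ring
    rw [h2, invSum_cons]
    calc √‖logDeriv (fun z => (z - a) * (linProd Z z * h z)) z‖
        ≤ √(‖z - a‖⁻¹ + ‖logDeriv (fun z => linProd Z z * h z) z‖) := sqrt_le_sqrt h1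
      _ ≤ √(‖z - a‖⁻¹) + √‖logDeriv (fun z => linProd Z z * h z) z‖ :=
          sqrt_add_le' _ _ (by positivity) (norm_nonneg _)
      _ ≤ _ := by
          rw [sqrt_inv]; linarith

lemma posLog_le_tangent (x B : ℝ) (hx : 0 ≤ x) (hB : 0 < B) :
    log⁺ x ≤ 2 * ((1 + √x) / B - 1 + log B) := by
  have h1 : log⁺ x ≤ 2 * log (1 + √x) := by
    rw [posLog_apply]
    apply max_le
    · have : 0 ≤ log (1 + √x) := log_nonneg (by linarith [sqrt_nonneg x])
      linarith
    · by_cases hx0 : x = 0
      · subst hx0; simp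
      · have hxp : 0 < x := lt_of_le_of_ne hx (Ne.symm hx0)
        have h2 : log x = 2 * log (√x) := by
          rw [log_sqrt hx]; ring
        rw [h2]
        have : log (√x) ≤ log (1 + √x) := log_le_log (sqrt_pos.mpr hxp) (by linarith)
        linarith
  have h2 : log (1 + √x) ≤ (1 + √x) / B - 1 + log B := by
    have h3 : 0 < (1 + √x) / B := by positivity
    have h4 := log_le_sub_one_of_pos h3
    rw [log_div (by positivity) hB.ne'] at h4
    linarith
  linarith



/-- core estimate: for `p 0 ≠ 0` -/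
lemma core (p : ℂ → ℂ) (hp : Differentiable ℂ p) (h0 : p 0 ≠ 0) (r R : ℝ) (hr : 1 ≤ r) (hrR : r < R)
    (hR1 : R ≤ r + 1) :
    ∃ B : ℝ, 1 ≤ B ∧ B ≤ r ^ 3 * (1 / (R - r)) ^ 3 *
        ((2 + (544 + 4 * K0) * (1 + |log ‖p 0‖|)) * (1 + proximity p ⊤ R)) ∧
      proximity (fun z => logDeriv p z) ⊤ r ≤ 2 * log B := by
  set ρ : ℝ := (r + R) / 2 with hρdef
  have hrρ : r < ρ := by rw [hρdef]; linarith
  have hρR : ρ < R := by rw [hρdef]; linarith
  have hρ1 : 1 ≤ ρ := by linarith
  have hρ : 0 < ρ := by linarith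
  have hRpos : 0 < R := by linarith
  obtain ⟨Z, h, hh, hZ, hfac, hne⟩ := exists_factor p hp h0 ρ R hρ hρR
  set n : ℝ := (Z.length : ℝ) with hn
  have hn0 : 0 ≤ n := by positivity
  set T : ℝ := proximity p ⊤ R with hT
  have hT0 : 0 ≤ T := proximity_nonneg R
  set L : ℝ := |log ‖p 0‖| with hL
  have hL0 : 0 ≤ L := abs_nonneg _
  have hL1 : -log ‖p 0‖ ≤ L := neg_le_abs _
  have hh0 : h 0 ≠ 0 := hne 0 (by simpa using hρ.le)
  have hZ0 : ∀ a ∈ Z, a ≠ 0 := by
    intro a ha ha0
    apply h0
    rw [hfac]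
    have : linProd Z 0 = 0 := by
      unfold linProd
      apply List.prod_eq_zero
      simp only [List.mem_map]
      exact ⟨a, ha, by simp [ha0]⟩
    rw [this, zero_mul]
  have hfun : (fun z => linProd Z z * h z) = p := by ext z; rw [hfac]
  set x : ℝ := 1 / (R - r) with hx
  have hRr : 0 < R - r := by linarith
  have hx1 : 1 ≤ x := by
    rw [hx, le_div_iff₀ hRr]; linarith
  have hxR : x * (R - r) = 1 := by rw [hx]; field_simp
  -- bound on n
  have hcard := card_le p h hp hh h0 ρ R hρ hρR.le Z hZ hfac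
  have hlog : (R - r) / (4 * r) ≤ log R - log ρ := by
    have h1 : log ρ - log R = log (ρ / R) := by rw [log_div hρ.ne' hRpos.ne']
    have h2 : log (ρ / R) ≤ ρ / R - 1 := log_le_sub_one_of_pos (by positivity)
    have h3 : ρ / R - 1 = -((R - r) / (2 * R)) := by
      rw [hρdef]; field_simp; ring
    have h4 : (R - r) / (4 * r) ≤ (R - r) / (2 * R) := by
      apply div_le_div_of_nonneg_left hRr.le (by positivity)
      linarith
    linarith
  have hnb : n ≤ 4 * r * x * (T + L) := by
    have h1 : n * ((R - r) / (4 * r)) ≤ T + L := by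
      have := mul_le_mul_of_nonneg_left hlog hn0
      linarith
    have h2 : n = n * ((R - r) / (4 * r)) * (4 * r * x) := by
      have : (R - r) / (4 * r) * (4 * r * x) = 1 := by
        rw [hx]; field_simp
      rw [mul_assoc, this, mul_one]
    rw [h2]
    calc n * ((R - r) / (4 * r)) * (4 * r * x) ≤ (T + L) * (4 * r * x) := by
          gcongr
      _ = 4 * r * x * (T + L) := by ring
  -- bound on A
  set A : ℝ := circleAverage (fun z => |log ‖h z‖|) 0 ρ with hA
  have hA0 : 0 ≤ A := circleAverage_nonneg_of_nonneg (fun z _ => abs_nonneg _)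
  have hA1 : A ≤ 2 * T + L + n * (4 * ρ) := by
    have h1 := avg_abs_log_h h hh hh0 ρ hρ1 Z hZ hZ0
    have h2 : (fun z => |log ‖linProd Z z * h z‖|) = fun z => |log ‖p z‖| := by
      ext z; rw [hfac]
    rw [h2] at h1
    have h3 := avg_abs_log p hp h0 ρ hρ
    have h4 := proximity_mono p hp ρ R hρ hρR.le
    linarith
  have hA2 : A ≤ 34 * r ^ 2 * x * (T + L) := by
    have hρ2 : ρ ≤ 2 * r := by rw [hρdef]; linarith
    have h1 : n * (4 * ρ) ≤ 4 * r * x * (T + L) * (4 * (2 * r)) := by
      gcongr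
    have h2 : 1 ≤ r ^ 2 * x := by
      have : 1 ≤ r ^ 2 := by nlinarith
      nlinarith
    have h3 : (2 * (T + L)) ≤ 2 * (T + L) * (r ^ 2 * x) := by
      nlinarith
    nlinarith
  set D : ℝ := 2 * ρ / (ρ - r) ^ 2 * A with hD
  have hD0 : 0 ≤ D := by positivity
  have hD1 : D ≤ 544 * r ^ 3 * x ^ 3 * (T + L) := by
    have h1 : 2 * ρ / (ρ - r) ^ 2 = 8 * ρ * x ^ 2 := by
      rw [hx, hρdef]
      have : (r + R) / 2 - r = (R - r) / 2 := by ring
      rw [this]; field_simp; ring
    rw [hD, h1]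
    have hρ2 : ρ ≤ 2 * r := by rw [hρdef]; linarith
    calc 8 * ρ * x ^ 2 * A ≤ 8 * (2 * r) * x ^ 2 * (34 * r ^ 2 * x * (T + L)) := by
          gcongr
      _ = 544 * r ^ 3 * x ^ 3 * (T + L) := by ring
  have hK := K0_nonneg
  refine ⟨1 + √D + n * K0, ?_, ?_, ?_⟩
  · have : 0 ≤ √D := sqrt_nonneg _
    have : 0 ≤ n * K0 := by positivity
    linarith
  · have h1 : √D ≤ 1 + D := by
      rw [sqrt_le_left (by positivity)]
      nlinarith
    have h2 : n * K0 ≤ 4 * r * x * (T + L) * K0 := by gcongr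
    have hrx : 1 ≤ r * x := by nlinarith
    have hrx3 : r * x ≤ r ^ 3 * x ^ 3 := by
      have : r ^ 3 * x ^ 3 = (r * x) * (r * x) ^ 2 := by ring
      rw [this]
      have h5 : 1 ≤ (r * x) ^ 2 := by nlinarith
      nlinarith
    have hrx3' : 1 ≤ r ^ 3 * x ^ 3 := hrx.trans hrx3
    have h3 : 4 * r * x * (T + L) * K0 ≤ r ^ 3 * x ^ 3 * (4 * K0 * (T + L)) := by
      have : 4 * r * x * (T + L) * K0 = (r * x) * (4 * K0 * (T + L)) := by ring
      rw [this]
      gcongr
    have h4 : 2 + (544 + 4 * K0) * (T + L) ≤ (2 + (544 + 4 * K0) * (1 + L)) * (1 + T) := by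
      have h5 : 0 ≤ (544 + 4 * K0) := by linarith
      nlinarith [mul_nonneg h5 hT0, mul_nonneg h5 hL0, mul_nonneg (mul_nonneg h5 hL0) hT0]
    calc 1 + √D + n * K0 ≤ 2 + 544 * r ^ 3 * x ^ 3 * (T + L) + r ^ 3 * x ^ 3 * (4 * K0 * (T + L)) := by
          linarith
      _ ≤ r ^ 3 * x ^ 3 * (2 + (544 + 4 * K0) * (T + L)) := by
          nlinarith
      _ ≤ _ := by gcongr
  · -- the proximity bound
    set B : ℝ := 1 + √D + n * K0 with hB
    have hB1 : 1 ≤ B := by
      have : 0 ≤ √D := sqrt_nonneg _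
      have : 0 ≤ n * K0 := by positivity
      linarith
    have hB0 : 0 < B := by linarith
    obtain ⟨hint, havg⟩ := invSum_circle Z r hr
    rw [proximity_top]
    have hmer : Meromorphic (fun z => logDeriv p z) := by
      have : Meromorphic p := fun z => (hp.analyticAt z).meromorphicAt
      intro z
      simp only [logDeriv_apply]
      exact (this z).deriv.div (this z)
    have hi1 : CircleIntegrable (fun z => log⁺ ‖logDeriv p z‖) 0 r :=
      MeromorphicOn.circleIntegrable_posLog_norm (fun z _ => hmer z)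
    have hi2 : CircleIntegrable (fun z => (2 / B) * invSum Z z) 0 r := by
      exact hint.const_mul _
    have hi3 : CircleIntegrable (fun z => (2 / B) * invSum Z z +
        2 * ((1 + √D) / B - 1 + log B)) 0 r := hi2.add (circleIntegrable_const _ _ _)
    have hle : circleAverage (fun z => log⁺ ‖logDeriv p z‖) 0 r
        ≤ circleAverage (fun z => (2 / B) * invSum Z z + 2 * ((1 + √D) / B - 1 + log B)) 0 r := by
      apply circleAverage_mono hi1 hi3
      intro z hz
      have hz' : ‖z‖ = r := by simpa [abs_of_pos (by linarith : 0 < r)] using hz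
      have h1 := posLog_le_tangent ‖logDeriv p z‖ B (norm_nonneg _) hB0
      have h2 := sqrt_norm_logDeriv h hh Z z
      rw [hfun] at h2
      have h3 : ‖logDeriv h z‖ ≤ D := by
        rw [logDeriv_apply]
        exact logderiv_zero_free h hh ρ r (by linarith) hrρ hne z hz'.le
      have h4 : √‖logDeriv h z‖ ≤ √D := sqrt_le_sqrt h3
      have h5 : (1 + √‖logDeriv p z‖) / B ≤ (1 + √D + invSum Z z) / B := by
        apply div_le_div_of_nonneg_right _ hB0.le
        linarith
      have h6 : (1 + √D + invSum Z z) / B = (1 + √D) / B + invSum Z z / B := by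
        rw [add_div]
      have h7 : (2 / B) * invSum Z z = 2 * (invSum Z z / B) := by ring
      rw [h7]
      linarith
    refine hle.trans ?_
    rw [circleAverage_fun_add hi2 (circleIntegrable_const _ _ _), circleAverage_const]
    have hs : circleAverage (fun z => (2 / B) * invSum Z z) 0 r
        = (2 / B) * circleAverage (invSum Z) 0 r := by
      have := circleAverage_fun_smul (c := 0) (R := r) (a := (2 / B : ℝ)) (f := invSum Z)
      simpa [smul_eq_mul] using this
    rw [hs]
    have h8 : (2 / B) * circleAverage (invSum Z) 0 r ≤ (2 / B) * (n * K0) := by gcongr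
    have h9 : (2 / B) * (n * K0) + 2 * ((1 + √D) / B - 1 + log B) = 2 * log B := by
      have : (n * K0) / B + (1 + √D) / B = 1 := by
        rw [← add_div, div_eq_one_iff_eq hB0.ne', hB]; ring
      have h10 : (2 / B) * (n * K0) = 2 * ((n * K0) / B) := by ring
      rw [h10]; linarith
    linarith

/-- logarithmic derivative lemma for `p 0 ≠ 0`. -/
lemma ldl_ne_zero (p : ℂ → ℂ) (hp : Differentiable ℂ p) (h0 : p 0 ≠ 0) :
    ∃ C : ℝ, 0 ≤ C ∧ ∀ r R : ℝ, 1 ≤ r → r < R → R ≤ r + 1 →
      proximity (fun z => logDeriv p z) ⊤ r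
        ≤ C + 2 * log⁺ (proximity p ⊤ R) + 6 * log r + 6 * log (1 / (R - r)) := by
  have hK := K0_nonneg
  set C2 : ℝ := 2 + (544 + 4 * K0) * (1 + |log ‖p 0‖|) with hC2
  have hC21 : 1 ≤ C2 := by
    have : 0 ≤ (544 + 4 * K0) * (1 + |log ‖p 0‖|) := by positivity
    linarith
  refine ⟨2 * log C2 + 2 * log 2, ?_, ?_⟩
  · have := log_nonneg hC21
    have := log_nonneg (by norm_num : (1:ℝ) ≤ 2)
    linarith
  · intro r R hr hrR hR1
    obtain ⟨B, hB1, hB2, hB3⟩ := core p hp h0 r R hr hrR hR1
    have hT0 : 0 ≤ proximity p ⊤ R := proximity_nonneg R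
    have hx : 0 < 1 / (R - r) := by
      have : 0 < R - r := by linarith
      positivity
    have hr0 : 0 < r := by linarith
    have h1 : log B ≤ 3 * log r + 3 * log (1 / (R - r)) + (log C2 + log (1 + proximity p ⊤ R)) := by
      have h2 := log_le_log (by linarith) hB2
      rw [log_mul (by positivity) (by positivity), log_mul (by positivity) (by positivity),
        log_pow, log_pow, log_mul (by positivity) (by positivity)] at h2
      push_cast at h2
      exact h2
    have h3 : log (1 + proximity p ⊤ R) ≤ log 2 + log⁺ (proximity p ⊤ R) := by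
      have h4 := posLog_add (x := 1) (y := proximity p ⊤ R)
      have h5 : log (1 + proximity p ⊤ R) ≤ log⁺ (1 + proximity p ⊤ R) := le_max_right _ _
      simp only [posLog_one, add_zero] at h4
      linarith
    linarith

/-- Extraction of the zero at the origin. -/
lemma exists_pow_factor (p : ℂ → ℂ) (hp : Differentiable ℂ p) (hne : ∃ z, p z ≠ 0) :
    ∃ (k : ℕ) (q : ℂ → ℂ), Differentiable ℂ q ∧ q 0 ≠ 0 ∧ ∀ z, p z = z ^ k * q z := by
  classical
  let P : ℕ → Prop := fun k => ∃ q : ℂ → ℂ, Differentiable ℂ q ∧ ∀ z, p z = z ^ k * q z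
  have hP0 : P 0 := ⟨p, hp, by simp⟩
  have hord : analyticOrderAt p 0 ≠ ⊤ := by
    intro htop
    rw [analyticOrderAt_eq_top] at htop
    have hA : AnalyticOnNhd ℂ p univ := fun z _ => hp.analyticAt z
    have := hA.eqOn_zero_of_preconnected_of_eventuallyEq_zero isPreconnected_univ (mem_univ 0) htop
    obtain ⟨z, hz⟩ := hne
    exact hz (this (mem_univ z))
  have hPb : ∀ k, P k → k ≤ (analyticOrderAt p 0).toNat := by
    rintro k ⟨q, hq, hfac⟩
    have h1 : (k : ℕ∞) ≤ analyticOrderAt p 0 := by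
      rw [natCast_le_analyticOrderAt (hp.analyticAt 0)]
      refine ⟨q, hq.analyticAt 0, Eventually.of_forall (fun z => ?_)⟩
      rw [hfac]; simp
    rw [← ENat.natCast_toNat hord] at h1
    exact_mod_cast h1
  obtain ⟨q, hq, hfac⟩ := Nat.findGreatest_spec (Nat.zero_le (analyticOrderAt p 0).toNat) hP0
  refine ⟨_, q, hq, ?_, hfac⟩
  intro hq0
  have hds : Differentiable ℂ (dslope q 0) := by
    rw [← differentiableOn_univ, Complex.differentiableOn_dslope (univ_mem)]
    exact hq.differentiableOn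
  have hP : P (Nat.findGreatest P (analyticOrderAt p 0).toNat + 1) := by
    refine ⟨dslope q 0, hds, fun z => ?_⟩
    have h1 := sub_smul_dslope q 0 z
    rw [hq0, sub_zero, smul_eq_mul, sub_zero] at h1
    rw [hfac, ← h1]; ring
  have := Nat.le_findGreatest (hPb _ hP) hP
  omega

theorem ldl (p : ℂ → ℂ) (hp : Differentiable ℂ p) (hne : ∃ z, p z ≠ 0) :
    ∃ C : ℝ, 0 ≤ C ∧ ∀ r R : ℝ, 1 ≤ r → r < R → R ≤ r + 1 →
      proximity (fun z => deriv p z / p z) ⊤ r
        ≤ C + C * log⁺ (proximity p ⊤ R) + C * log r + C * log (1 / (R - r)) := by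
  obtain ⟨k, q, hq, hq0, hfac⟩ := exists_pow_factor p hp hne
  obtain ⟨C, hC, hmain⟩ := ldl_ne_zero q hq hq0
  refine ⟨C + log 2 + log⁺ k + 6, ?_, ?_⟩
  · have := log_nonneg (by norm_num : (1:ℝ) ≤ 2)
    have := posLog_nonneg (x := (k:ℝ))
    linarith
  · intro r R hr hrR hR1
    have h1 := hmain r R hr hrR hR1
    have hlog2 := log_nonneg (by norm_num : (1:ℝ) ≤ 2)
    have hk := posLog_nonneg (x := (k:ℝ))
    have hr0 : 0 < r := by linarith
    have hR0 : 0 < R := by linarith
    -- monotonicity for q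
    have h2 : proximity q ⊤ R ≤ proximity p ⊤ R := by
      rw [proximity_top, proximity_top]
      apply circleAverage_mono (circleIntegrable_posLog_norm q hq R) (circleIntegrable_posLog_norm p hp R)
      intro z hz
      have hz' : ‖z‖ = R := by simpa [abs_of_pos hR0] using hz
      apply posLog_le_posLog (norm_nonneg _)
      rw [hfac, norm_mul, norm_pow, hz']
      have : 1 ≤ R ^ k := one_le_pow₀ (by linarith)
      nlinarith [norm_nonneg (q z)]
    have hq0' : 0 ≤ proximity q ⊤ R := proximity_nonneg R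
    have h3 : log⁺ (proximity q ⊤ R) ≤ log⁺ (proximity p ⊤ R) := posLog_le_posLog hq0' h2
    have h4 : proximity (fun z => deriv p z / p z) ⊤ r
        ≤ log 2 + log⁺ k + proximity (fun z => logDeriv q z) ⊤ r := by
      rw [proximity_top, proximity_top]
      have hmer : Meromorphic (fun z => logDeriv q z) := by
        have : Meromorphic q := fun z => (hq.analyticAt z).meromorphicAt
        intro z
        simp only [logDeriv_apply]
        exact (this z).deriv.div (this z)
      have hmerp : Meromorphic (fun z => deriv p z / p z) := by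
        have : Meromorphic p := fun z => (hp.analyticAt z).meromorphicAt
        intro z
        exact (this z).deriv.div (this z)
      have hi1 : CircleIntegrable (fun z => log⁺ ‖logDeriv q z‖) 0 r :=
        MeromorphicOn.circleIntegrable_posLog_norm (fun z _ => hmer z)
      have hi2 : CircleIntegrable (fun z => log⁺ ‖deriv p z / p z‖) 0 r :=
        MeromorphicOn.circleIntegrable_posLog_norm (fun z _ => hmerp z)
      have hi3 : CircleIntegrable (fun z => (log 2 + log⁺ k) + log⁺ ‖logDeriv q z‖) 0 r :=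
        CircleIntegrable.add (circleIntegrable_const _ _ _) hi1
      calc circleAverage (fun z => log⁺ ‖deriv p z / p z‖) 0 r
          ≤ circleAverage (fun z => (log 2 + log⁺ k) + log⁺ ‖logDeriv q z‖) 0 r := by
            apply circleAverage_mono hi2 hi3
            intro z hz
            have hz' : ‖z‖ = r := by simpa [abs_of_pos hr0] using hz
            have hz0 : z ≠ 0 := by
              intro h; rw [h, norm_zero] at hz'; linarith
            have h5 : ‖deriv p z / p z‖ ≤ k + ‖logDeriv q z‖ := by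
              by_cases hqz : q z = 0
              · rw [hfac, hqz, mul_zero, div_zero, norm_zero]; positivity
              have hpf : p = fun z => z ^ k * q z := by ext z; exact hfac z
              rw [← logDeriv_apply, hpf,
                logDeriv_mul (f := fun z : ℂ => z ^ k) (g := q) z (pow_ne_zero k hz0) hqz
                (by fun_prop) (hq z)]
              refine (norm_add_le _ _).trans ?_
              gcongr
              rw [logDeriv_apply]
              simp only [deriv_pow_field]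
              rcases Nat.eq_zero_or_pos k with hk0 | hk0
              · simp [hk0]
              · have h6 : (k : ℂ) * z ^ (k - 1) / z ^ k = k / z := by
                  rw [div_eq_div_iff (pow_ne_zero k hz0) hz0]
                  have : z ^ k = z ^ (k - 1) * z := by
                    rw [← pow_succ]; congr 1; omega
                  rw [this]; ring
                rw [h6, norm_div, hz', Complex.norm_natCast]
                apply div_le_self (by positivity) hr
            calc log⁺ ‖deriv p z / p z‖ ≤ log⁺ (k + ‖logDeriv q z‖) :=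
                  posLog_le_posLog (norm_nonneg _) h5
              _ ≤ log 2 + log⁺ k + log⁺ ‖logDeriv q z‖ := posLog_add
        _ = _ := by
            rw [circleAverage_fun_add (circleIntegrable_const _ _ _) hi1, circleAverage_const]
    have hlogr : 0 ≤ log r := log_nonneg hr
    have hx1 : 1 ≤ 1 / (R - r) := by
      rw [le_div_iff₀ (by linarith)]; linarith
    have hlogx : 0 ≤ log (1 / (R - r)) := log_nonneg hx1
    have hlp := posLog_nonneg (x := proximity p ⊤ R)
    have e1 : 2 * log⁺ (proximity q ⊤ R) ≤ (C + log 2 + log⁺ k + 6) * log⁺ (proximity p ⊤ R) := by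
      nlinarith
    have e2 : 6 * log r ≤ (C + log 2 + log⁺ k + 6) * log r := by nlinarith
    have e3 : 6 * log (1 / (R - r)) ≤ (C + log 2 + log⁺ k + 6) * log (1 / (R - r)) := by nlinarith
    linarith

end Pool.Agent.Hhelper97.LDL
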